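import Pool.Agent.Y472.G.Defs
import Pool.Agent.Y674.CB.Core

/-!
# Asymptotics of `XN`: the core with a complex shift `v₀` of the axis variable
-/

set_option autoImplicit false

namespace Pool.Agent.Y674.CG

open Finset Filter Topology Metric
open Pool.Agent.W711.HT
open Pool.Agent.Y472
open Pool.Agent.Y674.CB
open Pool.Agent.Y481 (itI itN itG Sep wts cw LI LN)
open scoped Real

/-- asymptotics of the kernel near `(0, 0, v₀)` -/
def AS (v₀ : ℂ) (ρ₁ : ℝ) (s : ℂ → ℂ → ℂ → ℂ) : Prop := ∀ ε : ℝ, 0 < ε → ∀ᶠ N : ℕ in atTop,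
  ∀ ψ ∈ Rc ρ₁ ρ₁, ∀ ψ' ∈ Rc ρ₁ ρ₁, ∀ χ ∈ Rc ρ₁ ρ₁, kh N ψ ψ' (χ + v₀) ≠ 0 ∧
    |Real.log ‖kh N ψ ψ' (χ + v₀)‖ - N * (s ψ ψ' χ).re| ≤ ε * N

/-! ### The kernel of the ring -/

/-- the kernel of the ring as a function of `n + 1` variables -/
noncomputable def gW (v₀ : ℂ) (n N : ℕ) (ψ : ℕ → ℂ) : ℂ := Wk n N (ψ n + v₀) ψ

lemma kh_sepy {L : ℕ} (v₀ : ℂ) (N : ℕ) {i j l : ℕ} (hi : i < L) (hj : j < L) (hl : l < L) :
    Sep L (fun ψ => kh N (ψ i) (ψ j) (ψ l + v₀)) := by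
  unfold kh
  refine Sep.sum _ fun d _ => ?_
  have hd : Differentiable ℂ (fun χ : ℂ => Tg N d (χ + v₀)) :=
    (Tg_diff N d).comp (by fun_prop)
  have h := (((Sep.var hi (Rp_diff N d)).mul (Sep.var hj (Rp_diff N d))).mul
    (Sep.var hl hd)).mul (Sep.const (n := L) (((Sd N d : ℂ) ^ 2)⁻¹))
  exact h

lemma gW_sep (v₀ : ℂ) {n : ℕ} (hn : 1 ≤ n) (N : ℕ) : Sep (n + 1) (gW v₀ n N) := by
  unfold gW Wk
  refine Sep.prod _ fun j hj => ?_
  rw [mem_range] at hj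
  exact kh_sepy v₀ N (by omega) ((Nat.mod_lt _ (by omega)).trans (by omega)) (by omega)

lemma gW_eq {v₀ : ℂ} {n N : ℕ} {χ : ℂ} (ψ ψ' : ℕ → ℂ) (h : ψ n = χ) (h' : ∀ i < n, ψ i = ψ' i) :
    gW v₀ n N ψ = Wk n N (χ + v₀) ψ' := by
  unfold gW Wk
  rw [h]
  refine prod_congr rfl fun j hj => ?_
  rw [mem_range] at hj
  rw [h' j hj, h' ((j + 1) % n) (Nat.mod_lt _ (by omega))]

lemma kh_limy {v₀ : ℂ} {ρ₀ ρ₁ : ℝ} {s : ℂ → ℂ → ℂ → ℂ} (hS : SJ ρ₀ s) (h1 : ρ₁ ≤ ρ₀) (H : AS v₀ ρ₁ s)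
    {x y u : ℕ → ℂ} {x₀ y₁ u₀ : ℂ} (hx0 : x₀ ∈ Rc ρ₁ ρ₁) (hy0 : y₁ ∈ Rc ρ₁ ρ₁) (hu0 : u₀ ∈ Rc ρ₁ ρ₁)
    (hx : Tendsto x atTop (𝓝 x₀)) (hy : Tendsto y atTop (𝓝 y₁)) (hu : Tendsto u atTop (𝓝 u₀)) :
    (∀ᶠ N : ℕ in atTop, kh N (x N) (y N) (u N + v₀) ≠ 0) ∧
    Tendsto (fun N : ℕ => Real.log ‖kh N (x N) (y N) (u N + v₀)‖ / N) atTop
      (𝓝 (s x₀ y₁ u₀).re) := by
  have ex := hx.eventually ((rc_open ρ₁ ρ₁).mem_nhds hx0)
  have ey := hy.eventually ((rc_open ρ₁ ρ₁).mem_nhds hy0)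
  have eu := hu.eventually ((rc_open ρ₁ ρ₁).mem_nhds hu0)
  refine ⟨?_, ?_⟩
  · filter_upwards [ex, ey, eu, H 1 one_pos] with N h1 h2 h3 h4
    exact (h4 _ h1 _ h2 _ h3).1
  · have hc : ContinuousAt (fun p : ℂ × ℂ × ℂ => s p.1 p.2.1 p.2.2) (x₀, y₁, u₀) :=
      hS.continuousOn.continuousAt (((rc_open _ _).prod ((rc_open _ _).prod (rc_open _ _))).mem_nhds
        ⟨rc_mono h1 hx0, rc_mono h1 hy0, rc_mono h1 hu0⟩)
    have hs : Tendsto (fun N => (s (x N) (y N) (u N)).re) atTop (𝓝 (s x₀ y₁ u₀).re) := by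
      have := (Complex.continuous_re.tendsto _).comp
        (hc.tendsto.comp (hx.prodMk_nhds (hy.prodMk_nhds hu)))
      exact this
    rw [Metric.tendsto_atTop] at hs ⊢
    intro ε hε
    obtain ⟨N₁, hN₁⟩ := hs (ε / 2) (by positivity)
    have h5 := ((ex.and (ey.and eu)).and (H (ε / 4) (by positivity))).and (eventually_ge_atTop 1)
    obtain ⟨N₂, hN₂⟩ := eventually_atTop.1 h5
    refine ⟨max N₁ N₂, fun N hN => ?_⟩
    obtain ⟨⟨⟨k1, k2, k3⟩, k4⟩, k5⟩ := hN₂ N ((le_max_right _ _).trans hN)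
    have k6 := (k4 _ k1 _ k2 _ k3).2
    have k7 := hN₁ N ((le_max_left _ _).trans hN)
    have hNp : (0 : ℝ) < N := by exact_mod_cast k5
    rw [Real.dist_eq] at k7 ⊢
    have k8 : |Real.log ‖kh N (x N) (y N) (u N + v₀)‖ / N - (s (x N) (y N) (u N)).re| ≤
        ε / 4 := by
      have : Real.log ‖kh N (x N) (y N) (u N + v₀)‖ / N - (s (x N) (y N) (u N)).re =
          (Real.log ‖kh N (x N) (y N) (u N + v₀)‖ - N * (s (x N) (y N) (u N)).re) / N := by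
        field_simp
      rw [this, abs_div, abs_of_pos hNp, div_le_iff₀ hNp]
      exact k6
    have k9 := abs_sub_le (Real.log ‖kh N (x N) (y N) (u N + v₀)‖ / N)
      (s (x N) (y N) (u N)).re (s x₀ y₁ u₀).re
    linarith

lemma gW_lim {v₀ : ℂ} {ρ₀ ρ₁ : ℝ} {s : ℂ → ℂ → ℂ → ℂ} (hS : SJ ρ₀ s) (h1 : ρ₁ ≤ ρ₀) (H : AS v₀ ρ₁ s)
    {n : ℕ} (hn : 1 ≤ n) : SeqLim (n + 1) ρ₁ (fun N => gW v₀ n N) (Sr s n) := by
  intro ψ ψ₀ hψ₀ hψ
  have key : ∀ j < n, _ := fun j hj => kh_limy hS h1 H (hψ₀ j (by omega))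
    (hψ₀ ((j + 1) % n) ((Nat.mod_lt _ (by omega)).trans (by omega))) (hψ₀ n (by omega))
    (hψ j (by omega)) (hψ ((j + 1) % n) ((Nat.mod_lt _ (by omega)).trans (by omega)))
    (hψ n (by omega))
  have h2 : ∀ᶠ N : ℕ in atTop, ∀ j ∈ range n,
      kh N (ψ N j) (ψ N ((j + 1) % n)) (ψ N n + v₀) ≠ 0 := by
    rw [Filter.eventually_all_finset]
    intro j hj
    exact (key j (mem_range.1 hj)).1
  have h3 : Tendsto (fun N : ℕ => ∑ j ∈ range n,
      Real.log ‖kh N (ψ N j) (ψ N ((j + 1) % n)) (ψ N n + v₀)‖ / N) atTop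
      (𝓝 (∑ j ∈ range n, (s (ψ₀ j) (ψ₀ ((j + 1) % n)) (ψ₀ n)).re)) :=
    tendsto_finsetSum _ fun j hj => (key j (mem_range.1 hj)).2
  have h4 : (Sr s n ψ₀).re = ∑ j ∈ range n, (s (ψ₀ j) (ψ₀ ((j + 1) % n)) (ψ₀ n)).re := by
    unfold Sr
    rw [Complex.re_sum]
  rw [h4]
  refine h3.congr' ?_
  filter_upwards [h2] with N hN
  unfold gW Wk
  rw [norm_prod, Real.log_prod (fun j hj => norm_ne_zero_iff.2 (hN j hj)), sum_div]

/-! ### The core -/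

/-- the outcome -/
structure Out (v₀ : ℂ) (R₁ R c₀ B₀ C₁ M : ℝ) (s : ℂ → ℂ → ℂ → ℂ) (n : ℕ) (a : ℕ → ℤ)
    (ls : List (ℤ × ℤ)) (G : ℂ → ℂ) (z : ℂ → ℕ → ℂ) : Prop where
  der : ∀ χ ∈ Rc (R₁ / 2) (R₁ / 2), HasDerivAt G (Dr s n n (z χ)) χ
  zn : ∀ χ ∈ Rc (R₁ / 2) (R₁ / 2), z χ n = χ
  sm : ∀ χ ∈ Rc (R₁ / 2) (R₁ / 2), ∀ i < n, ‖z χ i‖ ≤ C₁ / |(a i : ℝ)| ∧ 0 < (z χ i).im ∧
    C₁ / |(a i : ℝ)| < R₁ / 4
  mem : ∀ χ ∈ Rc (R₁ / 2) (R₁ / 2), z χ ∈ Bx (n + 1) (R₁ / 2)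
  crit : ∀ χ ∈ Rc (R₁ / 2) (R₁ / 2), ∀ j < n,
    Complex.I * a ((j + 1) % n) * z χ ((j + 1) % n) / (2 * π) + Complex.I +
      deriv (fun w => s (z χ j) w χ) (z χ ((j + 1) % n)) +
      deriv (fun w => s w (z χ (((j + 1) % n + 1) % n)) χ) (z χ ((j + 1) % n)) = 0
  derG : ∀ χ ∈ Rc (R₁ / 2) (R₁ / 2),
    deriv G χ = ∑ j ∈ range n, deriv (fun w => s (z χ j) (z χ ((j + 1) % n)) w) χ
  val : ∀ χ ∈ Rc (R₁ / 2) (R₁ / 2), G χ = ∑ j ∈ range n, (Complex.I * a j * z χ j ^ 2 / (4 * π) +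
    Complex.I * z χ j + s (z χ j) (z χ ((j + 1) % n)) χ)
  close : ∀ χ ∈ Rc (R₁ / 2) (R₁ / 2), ∀ m : ℝ, 0 < m → (∀ i < n, m ≤ |(a i : ℝ)|) →
    ‖G χ - n * s 0 0 χ‖ ≤ n * C₁ / m
  bdd : ∀ χ ∈ Rc (R₁ / 2) (R₁ / 2), ‖G χ‖ ≤ B₀ + n * (C₁ / M)
  conc : ∀ χ ∈ Rc (R₁ / 2) (R₁ / 2), (deriv (deriv G) χ).re ≤ -(c₀ / 2)
  mw : MW (fun N χ => XN ls N (χ + v₀)) G (Rc R R)

theorem core {v₀ : ℂ} {ρ₀ ρ₁ : ℝ} {s : ℂ → ℂ → ℂ → ℂ} (hJ : SJ ρ₀ s) (hρ : ρ₁ ≤ ρ₀) (hA : AS v₀ ρ₁ s)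
    {n : ℕ} (hn : 2 ≤ n) {R₁ c₀ B₀ p₀ C₁ : ℝ} (hRρ : R₁ ≤ ρ₁)
    (hPot : PotE (n + 1) n R₁ c₀ B₀ p₀ (Sr s n) (Dr s n)) {a : ℕ → ℤ}
    {zz : ℕ → (ℕ → ℂ) → ℕ → ℂ} (hC1 : 0 < C₁)
    (hz : CrtE (n + 1) n R₁ c₀ B₀ p₀ C₁ (Sr s n) (Dr s n) a zz)
    (hEL : ∀ f : ℕ → (ℕ → ℂ) → ℂ, (∀ N, Sep (n + 1) (f N)) → SeqLim (n + 1) (R₁ / 2) f (Sr s n) →
      SeqLim (n + 1) (R₁ / 2) (fun N => itN (fun _ => R₁ / 8) a N n (f N))
        (fun ψ => Uj (Sr s n) a n (zz n ψ)))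
    {ls : List (ℤ × ℤ)} (hls : 2 * ls.length = n) (ha : ∀ i < n, a i = cw ls i) {M : ℝ} (hM : 0 < M)
    (haM : ∀ i < n, M ≤ |(a i : ℝ)|) {R κ : ℝ} (hR : 0 < R) (hRR : R ≤ R₁ / 4) (hκ : 0 < κ)
    (hκM : n * (C₁ / M) ≤ κ / 4)
    (hfar : ∀ᶠ N : ℕ in atTop, ∀ χ : ℂ, |χ.re| ≤ R → |χ.im| ≤ R → ∀ ψ : ℕ → ℂ,
      (∀ j < n, |(ψ j).re| ≤ π ∧ |(ψ j).im| ≤ 1 / N) → (∃ j < n, R₁ / 8 ≤ |(ψ j).re|) →
      ‖Wk n N (χ + v₀) ψ‖ ≤ Real.exp (N * (n * (s 0 0 χ).re - κ))) :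
    Out v₀ R₁ R c₀ B₀ C₁ M s n a ls (fun χ => Uj (Sr s n) a n (zz n (Function.update 0 n χ)))
      (fun χ => zz n (Function.update 0 n χ)) := by
  have hR1 := hPot.hR.1
  have hp₀ : 0 < p₀ := hPot.hp
  have hlim := hEL (fun N => gW v₀ n N) (fun N => gW_sep v₀ (by omega) N) (by
      intro ψ ψ₀ h1 h2
      exact gW_lim hJ hρ hA (by omega) ψ ψ₀ (bx_mono (by linarith) h1) h2)
  -- the function
  obtain ⟨up, hup⟩ : ∃ up : ℂ → ℕ → ℂ, up = fun χ => Function.update (0 : ℕ → ℂ) n χ := ⟨_, rfl⟩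
  have hup' : ∀ χ, Function.update (0 : ℕ → ℂ) n χ = up χ := fun χ => by rw [hup]
  simp only [hup']
  have hupn : ∀ χ, up χ n = χ := fun χ => by rw [hup]; exact Function.update_self _ _ _
  have hupi : ∀ χ, ∀ i, i ≠ n → up χ i = 0 := fun χ i hi => by
    rw [hup]; exact Function.update_of_ne hi _ _
  have hupu : ∀ χ w, Function.update (up χ) n w = up w := fun χ w => by
    rw [hup]; exact Function.update_idem _ _ _
  have hupB : ∀ χ ∈ Rc (R₁ / 2) (R₁ / 2), up χ ∈ Bx (n + 1) (R₁ / 2) := by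
    intro χ hχ i hi
    by_cases h : i = n
    · rw [h, hupn]; exact hχ
    · rw [hupi χ i h]; exact rc_zero (by positivity)
  have hyn : ∀ χ ∈ Rc (R₁ / 2) (R₁ / 2), zz n (up χ) n = χ := fun χ hχ => by
    rw [hz.rest n (by omega) (up χ) (hupB χ hχ) n le_rfl, hupn]
  have hyR : ∀ χ ∈ Rc (R₁ / 2) (R₁ / 2), zz n (up χ) ∈ Bx (n + 1) (R₁ / 2) := by
    intro χ hχ i hi
    by_cases h : i = n
    · rw [h, hyn χ hχ]
      exact hχ
    · have h1 := hz.sm n le_rfl (up χ) (hupB χ hχ) i (by omega)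
      exact rc_norm (by linarith [h1.1, h1.2.1])
  have hyB : ∀ χ ∈ Rc (R₁ / 2) (R₁ / 2), ∀ i < n + 1, zz n (up χ) i ∈ Rc ρ₀ ρ₀ := fun χ hχ i hi =>
    rc_mono (by linarith) (hyR χ hχ i hi)
  obtain ⟨G, hG⟩ : ∃ G : ℂ → ℂ, G = fun χ => Uj (Sr s n) a n (zz n (up χ)) := ⟨_, rfl⟩
  rw [← hG]
  have hGeq : ∀ χ, G χ = Uj (Sr s n) a n (zz n (up χ)) := fun χ => by rw [hG]
  have hGd : ∀ χ ∈ Rc (R₁ / 2) (R₁ / 2), HasDerivAt G (Dr s n n (zz n (up χ))) χ := by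
    intro χ hχ
    have h := hz.der n le_rfl (up χ) (hupB χ hχ) n le_rfl (by omega)
    simp only [hupu, hupn] at h
    rw [hG]
    exact h
  have hopen := rc_open (R₁ / 2) (R₁ / 2)
  have hclose : ∀ χ ∈ Rc (R₁ / 2) (R₁ / 2), ∀ m : ℝ, 0 < m → (∀ i < n, m ≤ |(a i : ℝ)|) →
      ‖G χ - n * s 0 0 χ‖ ≤ n * C₁ / m := by
    intro χ hχ m hm0 hm
    have h := (hz.close n le_rfl (up χ) (hupB χ hχ)).1
    have e1 : Sr s n (fun i => if i < n then 0 else up χ i) = n * s 0 0 χ := by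
      unfold Sr
      have : ∀ j ∈ range n, s ((fun i => if i < n then 0 else up χ i) j)
          ((fun i => if i < n then 0 else up χ i) ((j + 1) % n))
          ((fun i => if i < n then 0 else up χ i) n) = s 0 0 χ := by
        intro j hj
        rw [mem_range] at hj
        simp only [if_pos hj, if_pos (Nat.mod_lt (j + 1) (by omega : 0 < n)), lt_irrefl, if_false,
          hupn]
      rw [sum_congr rfl this, sum_const, card_range, nsmul_eq_mul]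
    rw [e1] at h
    have e2 : ∑ i ∈ range n, C₁ / |(a i : ℝ)| ≤ ∑ _i ∈ range n, C₁ / m :=
      sum_le_sum fun i hi => div_le_div_of_nonneg_left hC1.le hm0 (hm i (mem_range.1 hi))
    rw [sum_const, card_range, nsmul_eq_mul, ← mul_div_assoc] at e2
    rw [hGeq]
    exact h.trans e2
  have hpos : ∀ χ ∈ Rc (R₁ / 2) (R₁ / 2), p₀ / 2 ≤ (G χ).re := by
    intro χ hχ
    rw [hG]
    exact (hz.close n le_rfl (up χ) (hupB χ hχ)).2
  -- the far part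
  obtain ⟨Cf, hCf, hfp⟩ := Pool.Agent.Y481.far_part n (cw ls)
  have hr0 : 0 < R₁ / 8 := by positivity
  have hr_π : R₁ / 8 ≤ π := by
    have := Real.pi_gt_three
    have := hPot.hR.2
    linarith
  have hRe : ∀ χ ∈ Rc (R₁ / 2) (R₁ / 2), n * (s 0 0 χ).re - κ / 4 ≤ (G χ).re := by
    intro χ hχ
    have h1 := hclose χ hχ M hM haM
    rw [mul_div_assoc] at h1
    have h5 := (Complex.abs_re_le_norm _).trans (h1.trans hκM)
    have h6 : (G χ - n * s 0 0 χ).re = (G χ).re - n * (s 0 0 χ).re := by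
      rw [Complex.sub_re, ← Complex.ofReal_natCast, Complex.re_ofReal_mul]
    rw [h6, abs_le] at h5
    linarith
  have hfarb : ∀ᶠ N : ℕ in atTop, ∀ χ : ℂ, |χ.re| ≤ R → |χ.im| ≤ R →
      ‖XN ls N (χ + v₀) - itN (fun _ => R₁ / 8) a N n (gW v₀ n N) (up χ)‖ ≤
        Cf * Real.exp (N * (n * (s 0 0 χ).re - κ)) := by
    filter_upwards [hfp (fun _ => R₁ / 8) (fun _ _ => ⟨hr0, hr_π⟩), hfar] with
      N h1 h2 χ hχ1 hχ2
    have h5 := h1 (Wk n N (χ + v₀)) (Real.exp (N * (n * (s 0 0 χ).re - κ)))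
      (Real.exp_pos _).le (Wk_sep (by omega) N _) (h2 χ hχ1 hχ2)
    have e2 : XN ls N (χ + v₀) = itI (cw ls) N n (Wk n N (χ + v₀)) 0 := by
      unfold XN
      rw [hls]
    have e3 : itN (fun _ => R₁ / 8) a N n (gW v₀ n N) (up χ) =
        itN (fun _ => R₁ / 8) (cw ls) N n (Wk n N (χ + v₀)) 0 := by
      unfold itN
      refine itG_congr (χ := χ) (fun j hj => ?_) (fun ψ ψ' => gW_eq ψ ψ') n le_rfl (up χ) 0 (hupn χ)
        fun i hi => hupi χ i (by omega)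
      rw [ha j hj]
    rw [e2, e3]
    exact h5
  -- asymptotics
  obtain ⟨K, hK⟩ : ∃ K : Set ℂ, K = {z : ℂ | |z.re| ≤ R ∧ |z.im| ≤ R} := ⟨_, rfl⟩
  have hKc : IsCompact K := by
    rw [hK]
    refine Metric.isCompact_of_isClosed_isBounded ?_ ?_
    · have h1 : IsClosed {z : ℂ | |z.re| ≤ R} := isClosed_le (by fun_prop) continuous_const
      have h2 : IsClosed {z : ℂ | |z.im| ≤ R} := isClosed_le (by fun_prop) continuous_const
      exact h1.inter h2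
    · rw [isBounded_iff_forall_norm_le]
      refine ⟨2 * R, fun z hz => ?_⟩
      have h1 := Complex.norm_le_abs_re_add_abs_im z
      have h2 := hz.1
      have h3 := hz.2
      linarith
  have hKsub : ∀ z ∈ K, z ∈ Rc (R₁ / 2) (R₁ / 2) := by
    intro z hz
    rw [hK] at hz
    have h2 := hz.1
    have h3 := hz.2
    exact ⟨by linarith, by linarith⟩
  have hseq := Pool.Agent.W583.HT.seq ℂ K hKc
    (fun N z => Real.log ‖XN ls N (z + v₀)‖ / N) (fun z => (G z).re) (by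
      intro z hz
      exact (Complex.continuous_re.continuousAt.comp
        (hGd z (hKsub z hz)).continuousAt).continuousWithinAt) (by
      intro p p₁ hp₁ hp hpt
      have h1 := hKsub p₁ hp₁
      have hnear := hlim (fun N => up (p N)) (up p₁) (hupB p₁ h1) (by
        intro i hi
        by_cases h : i = n
        · rw [h]
          simp only [hupn]
          exact hpt
        · simp only [hupi _ i h]
          exact tendsto_const_nhds)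
      have e0 : (fun ψ => Uj (Sr s n) a n (zz n ψ)) (up p₁) = G p₁ := by rw [hG]
      rw [e0] at hnear
      have hlow := hRe p₁ h1
      have hps := hpos p₁ h1
      -- continuity of the comparison value
      have hsc : Tendsto (fun N => (s 0 0 (p N)).re) atTop (𝓝 (s 0 0 p₁).re) := by
        have hρ0 : 0 < ρ₀ := by linarith
        have h2 : ContinuousAt (fun w => s 0 0 w) p₁ :=
          (sj3 hJ (rc_zero hρ0) (rc_zero hρ0) (rc_mono (by linarith) h1)).continuousAt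
        exact (Complex.continuous_re.tendsto _).comp (h2.tendsto.comp hpt)
      have hnp : (0 : ℝ) < n := by exact_mod_cast (by omega : 0 < n)
      have hsc2 : ∀ᶠ N : ℕ in atTop, (s 0 0 (p N)).re ≤ (s 0 0 p₁).re + κ / (4 * n) := by
        have := hsc.eventually (gt_mem_nhds (lt_add_of_pos_right (s 0 0 p₁).re
          (by positivity : 0 < κ / (4 * n))))
        filter_upwards [this] with N hN
        exact hN.le
      refine log_near (b := fun N => itN (fun _ => R₁ / 8) a N n (gW v₀ n N) (up (p N)))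
        (g' := n * (s 0 0 p₁).re - κ / 2) (Cf := Cf) (by linarith) (by linarith) hnear ?_
      filter_upwards [hfarb, hsc2] with N hN hN2
      have := hp N
      rw [hK] at this
      refine (hN (p N) this.1 this.2).trans (mul_le_mul_of_nonneg_left ?_ hCf.le)
      apply Real.exp_le_exp.2
      refine mul_le_mul_of_nonneg_left ?_ (Nat.cast_nonneg _)
      have h3 := mul_le_mul_of_nonneg_left hN2 hnp.le
      have h4 : (n : ℝ) * ((s 0 0 p₁).re + κ / (4 * n)) = n * (s 0 0 p₁).re + κ / 4 := by field_simp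
      rw [h4] at h3
      linarith)
  refine
    { der := hGd
      zn := hyn
      sm := fun χ hχ i hi => ?_
      mem := hyR
      crit := fun χ hχ j hj => ?_
      derG := fun χ hχ => ?_
      val := fun χ hχ => ?_
      close := hclose
      bdd := fun χ hχ => ?_
      conc := fun χ hχ => ?_
      mw := fun ε hε => ?_ }
  · have h := hz.sm n le_rfl (up χ) (hupB χ hχ) i hi
    refine ⟨h.1, lt_of_lt_of_le ?_ h.2.2.2, h.2.1⟩
    have h0 : (a i : ℝ) ≠ 0 := by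
      intro h0
      have := haM i hi
      rw [h0, abs_zero] at this
      linarith
    positivity
  · have hi : (j + 1) % n < n := Nat.mod_lt _ (by omega)
    have h := hz.crit n le_rfl (up χ) (hupB χ hχ) ((j + 1) % n) hi
    rw [Dr_midj hJ hn (hyB χ hχ) hj, hyn χ hχ] at h
    rw [add_assoc]
    exact h
  · rw [(hGd χ hχ).deriv, Dr_lastj hJ (by omega) (hyB χ hχ), hyn χ hχ]
  · rw [hGeq]
    unfold Uj Sr
    rw [hyn χ hχ, ← sum_add_distrib]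
    refine sum_congr rfl fun j hj => ?_
    ring
  · have h1 := (hz.close n le_rfl (up χ) (hupB χ hχ)).1
    rw [← hGeq] at h1
    have h2 : ∑ i ∈ range n, C₁ / |(a i : ℝ)| ≤ ∑ _i ∈ range n, C₁ / M :=
      sum_le_sum fun i hi => div_le_div_of_nonneg_left hC1.le hM (haM i (mem_range.1 hi))
    rw [sum_const, card_range, nsmul_eq_mul] at h2
    have h3 : (fun i => if i < n then 0 else up χ i) ∈ Bx (n + 1) R₁ := by
      intro i hi
      by_cases h : i < n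
      · simp only [if_pos h]; exact rc_zero hR1
      · simp only [if_neg h]
        have : i = n := by omega
        rw [this, hupn]
        exact rc_mono (by linarith) hχ
    have h4 := (hPot.bd _ h3).1
    have h5 := norm_le_insert' (G χ) (Sr s n (fun i => if i < n then 0 else up χ i))
    linarith
  · have h := hz.conc n le_rfl (up χ) (hupB χ hχ) n le_rfl (by omega)
    simp only [hupu, hupn] at h
    have e : deriv G =ᶠ[𝓝 χ] fun w => Dr s n n (zz n (up w)) := by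
      filter_upwards [hopen.mem_nhds hχ] with w hw
      exact (hGd w hw).deriv
    rw [e.deriv_eq]
    exact h
  · filter_upwards [hseq (min ε (p₀ / 4)) (lt_min hε (by positivity)), eventually_ge_atTop 1] with
      N hN h1 χ hχ
    have hNp : (0 : ℝ) < N := by exact_mod_cast h1
    have h2 := hN χ (by rw [hK]; exact ⟨hχ.1.le, hχ.2.le⟩)
    have h3 := hpos χ (rc_mono (by linarith) hχ)
    refine ⟨?_, ?_⟩
    · intro h0
      have h4 := h2.trans (min_le_right _ _)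
      simp only [h0, norm_zero, Real.log_zero, zero_div, zero_sub, abs_neg] at h4
      have h5 := le_abs_self (G χ).re
      linarith
    · have h4 := h2.trans (min_le_left _ _)
      have h5 : Real.log ‖XN ls N (χ + v₀)‖ / N - (G χ).re =
          (Real.log ‖XN ls N (χ + v₀)‖ - N * (G χ).re) / N := by
        field_simp
      rw [h5, abs_div, abs_of_pos hNp, div_le_iff₀ hNp] at h4
      exact h4

end Pool.Agent.Y674.CG
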